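import Pool.Agent.Helper99.BK.Stmts
import Pool.Agent.Helper97.HB.IDC

set_option autoImplicit false

namespace Pool.Helper99.BK

open NumberField

theorem st_DV3 : ST_DV3 := by
  intro K _ _ h3 n hn
  by_cases hf : {J : Ideal (𝓞 K) | Ideal.absNorm J = n}.Finite
  · rw [Set.ncard_eq_toFinset_card _ hf]
    exact Pool.Agent.Helper97.HB.idc_card h3 n hn _ (fun I hI => by simpa using hI)
  · rw [Set.Infinite.ncard hf]
    exact Nat.zero_le _

end Pool.Helper99.BK
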