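import Pool.Agent.Helper99.BK.Stmts

set_option autoImplicit false

namespace Pool.Helper99.BK

open Finset

theorem tau_mul_le (a b : ℕ) : (a * b).divisors.card ≤ a.divisors.card * b.divisors.card := by
  classical
  rw [Nat.divisors_mul]
  exact Finset.card_mul_le

/-- `∑ τ(n)^k / n` -/
noncomputable def tauS (k N : ℕ) : ℝ := ∑ n ∈ Icc 1 N, (n.divisors.card : ℝ) ^ k / n

theorem tauS_nonneg (k N : ℕ) : 0 ≤ tauS k N :=
  Finset.sum_nonneg fun n _ => by positivity

theorem tauS_step (k N : ℕ) : tauS (k + 1) N ≤ (tauS k N) ^ 2 := by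
  classical
  let f : ℕ × ℕ → ℝ := fun x => ((x.1.divisors.card : ℝ) ^ k / x.1) *
    ((x.2.divisors.card : ℝ) ^ k / x.2)
  have hf : ∀ x, 0 ≤ f x := fun x => by simp only [f]; positivity
  let P := (Icc 1 N ×ˢ Icc 1 N).filter (fun x => x.1 * x.2 ≤ N)
  have h1 : ∑ x ∈ P, f x ≤ (tauS k N) ^ 2 := by
    refine (Finset.sum_le_sum_of_subset_of_nonneg (Finset.filter_subset _ _)
      (fun x _ _ => hf x)).trans ?_
    rw [sq, tauS, Finset.sum_mul_sum, Finset.sum_product]
  refine le_trans ?_ h1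
  have hmap : ∀ x ∈ P, x.1 * x.2 ∈ Icc 1 N := by
    intro x hx
    simp only [P, mem_filter, mem_product, mem_Icc] at hx
    rw [mem_Icc]
    exact ⟨Nat.mul_pos (by omega) (by omega), hx.2⟩
  rw [← Finset.sum_fiberwise_of_maps_to hmap, tauS]
  refine Finset.sum_le_sum fun n hn => ?_
  rw [mem_Icc] at hn
  have h2 : n.divisorsAntidiagonal ⊆ P.filter (fun x => x.1 * x.2 = n) := by
    intro x hx
    rw [Nat.mem_divisorsAntidiagonal] at hx
    obtain ⟨hx1, hx2⟩ := hx
    simp only [P, mem_filter, mem_product, mem_Icc]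
    have ha : x.1 ≠ 0 := by rintro h; rw [h, zero_mul] at hx1; exact hx2 hx1.symm
    have hb : x.2 ≠ 0 := by rintro h; rw [h, mul_zero] at hx1; exact hx2 hx1.symm
    have h3 : x.1 ≤ x.1 * x.2 := Nat.le_mul_of_pos_right _ (Nat.pos_of_ne_zero hb)
    have h4 : x.2 ≤ x.1 * x.2 := Nat.le_mul_of_pos_left _ (Nat.pos_of_ne_zero ha)
    refine ⟨⟨⟨⟨Nat.pos_of_ne_zero ha, ?_⟩, ⟨Nat.pos_of_ne_zero hb, ?_⟩⟩, ?_⟩, hx1⟩ <;> omega
  refine le_trans ?_ (Finset.sum_le_sum_of_subset_of_nonneg h2 (fun x _ _ => hf x))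
  have h5 : ∀ x ∈ n.divisorsAntidiagonal, (n.divisors.card : ℝ) ^ k / n ≤ f x := by
    intro x hx
    rw [Nat.mem_divisorsAntidiagonal] at hx
    obtain ⟨hx1, hx2⟩ := hx
    have hn0 : (0 : ℝ) < n := by exact_mod_cast Nat.pos_of_ne_zero hx2
    have h6 : (n.divisors.card : ℝ) ≤ x.1.divisors.card * x.2.divisors.card := by
      rw [← hx1]
      exact_mod_cast tau_mul_le _ _
    have h7 : f x = ((x.1.divisors.card : ℝ) * x.2.divisors.card) ^ k / n := by
      simp only [f]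
      rw [div_mul_div_comm, ← mul_pow]
      congr 1
      rw [← hx1]
      push_cast
      ring
    rw [h7]
    gcongr
  refine le_trans (le_of_eq ?_) (Finset.sum_le_sum h5)
  rw [Finset.sum_const, nsmul_eq_mul]
  have h8 : (n.divisorsAntidiagonal.card : ℝ) = n.divisors.card := by
    rw [← Nat.map_div_right_divisors, Finset.card_map]
  rw [h8, pow_succ]
  ring

theorem st_TAU : ST_TAU := by
  intro t ht
  set N := ⌊t⌋₊ with hN
  have ht0 : 0 < t := by linarith
  have hN1 : 1 ≤ N := Nat.le_floor (by exact_mod_cast ht)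
  have hNt : (N : ℝ) ≤ t := Nat.floor_le ht0.le
  have hlog : 0 ≤ Real.log t := Real.log_nonneg ht
  have h0 : tauS 0 N ≤ 1 + Real.log t := by
    have h1 : tauS 0 N = (harmonic N : ℝ) := by
      rw [tauS, harmonic_eq_sum_Icc]
      push_cast
      exact Finset.sum_congr rfl fun n _ => by rw [pow_zero, one_div]
    rw [h1]
    refine (harmonic_le_one_add_log N).trans ?_
    have : Real.log N ≤ Real.log t := Real.log_le_log (by exact_mod_cast hN1) hNt
    linarith
  have h1 : tauS 1 N ≤ (1 + Real.log t) ^ 2 := (tauS_step 0 N).trans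
    (pow_le_pow_left₀ (tauS_nonneg _ _) h0 2)
  have h2 : tauS 2 N ≤ (1 + Real.log t) ^ 4 := by
    refine (tauS_step 1 N).trans ((pow_le_pow_left₀ (tauS_nonneg _ _) h1 2).trans (le_of_eq ?_))
    ring
  have h3 : tauS 3 N ≤ (1 + Real.log t) ^ 8 := by
    refine (tauS_step 2 N).trans ((pow_le_pow_left₀ (tauS_nonneg _ _) h2 2).trans (le_of_eq ?_))
    ring
  calc ∑ n ∈ Icc 1 N, (n.divisors.card : ℝ) ^ 3
      ≤ ∑ n ∈ Icc 1 N, t * ((n.divisors.card : ℝ) ^ 3 / n) := by
        refine Finset.sum_le_sum fun n hn => ?_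
        rw [mem_Icc] at hn
        have hn0 : (0 : ℝ) < n := by exact_mod_cast hn.1
        have hnt : (n : ℝ) ≤ t := le_trans (by exact_mod_cast hn.2) hNt
        rw [mul_div_assoc', le_div_iff₀ hn0, mul_comm]
        gcongr
    _ = t * tauS 3 N := by rw [tauS, Finset.mul_sum]
    _ ≤ t * (1 + Real.log t) ^ 8 := by gcongr

end Pool.Helper99.BK
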